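import Mathlib
import Pool.Agent.R508.PAMgrow
import Pool.Agent.R508.PAMexist
import Pool.Agent.R508.PAMmeas
import Pool.Agent.R508.PAMprob

set_option autoImplicit false

/-! Q1 and Q2 of MP_e6ac48_pr are both false: a counterexample in dimension one.
Paper proof by helper985, formalisation by helper508. -/

open MeasureTheory Filter Topology

open scoped NNReal

namespace Pool.Agent.Results.MP_e6ac48_pr.LyapunovLimitsFail

/-- realisations of the environment `ξ = {ξ(x,t) : x ∈ ℤ, t ≥ 0}` (dimension `d = 1`) -/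
abbrev Field : Type := ℤ → ℝ≥0 → ℝ

/-- translation by `z` in space and by `s ≥ 0` in time -/
def shift (z : ℤ) (s : ℝ≥0) (φ : Field) : Field := fun x t => φ (x + z) (t + s)

/-- assumption (A1): the field is measurable, stationary under space-time translations, ergodic
(both under time translations alone and under space translations alone), not constant and
integrable -/
structure A1 {Ω : Type} [MeasurableSpace Ω] (P : Measure Ω) (ξ : Ω → Field) : Prop where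
  measurable : Measurable ξ
  stationary : ∀ z s, (P.map ξ).map (shift z s) = P.map ξ
  ergodic_time : ∀ A : Set Field, MeasurableSet A →
    (∀ s, shift 0 s ⁻¹' A =ᵐ[P.map ξ] A) → P.map ξ A = 0 ∨ P.map ξ A = 1
  ergodic_space : ∀ A : Set Field, MeasurableSet A →
    (∀ z, shift z 0 ⁻¹' A =ᵐ[P.map ξ] A) → P.map ξ A = 0 ∨ P.map ξ A = 1
  not_const : ∀ c : ℝ, ¬ ∀ᵐ ω ∂P, ξ ω 0 0 = c
  integrable : Integrable (fun ω => ξ ω 0 0) P

/-- `u` solves `∂u/∂t = κΔu + γξu` on `ℤ × [0,∞)` with `u(·,0) = δ₀` (the derivative at `t = 0` is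
one-sided) and is bounded on `ℤ × [0,T]` for every `T` -/
structure IsSolution (κ γ : ℝ) (φ : Field) (u : ℤ → ℝ → ℝ) : Prop where
  init : ∀ x, u x 0 = if x = 0 then 1 else 0
  deriv : ∀ (x : ℤ) (t : ℝ≥0), HasDerivWithinAt (u x)
    (κ * ((u (x + 1) t - u x t) + (u (x - 1) t - u x t)) + γ * φ x t * u x t) (Set.Ici 0) t
  bdd : ∀ T : ℝ, ∃ C : ℝ, ∀ x t, 0 ≤ t → t ≤ T → |u x t| ≤ C

/-- for all `κ, γ ≥ 0` and every `ω` the solution exists, is unique and `u(0,t) > 0`, and (A2)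
holds: `E log u(0,t) ≤ c t` for all `t ≥ 0` -/
def A2 {Ω : Type} [MeasurableSpace Ω] (P : Measure Ω) (ξ : Ω → Field) : Prop :=
  ∀ κ γ : ℝ, 0 ≤ κ → 0 ≤ γ → ∃ u : Ω → ℤ → ℝ → ℝ,
    (∀ ω, IsSolution κ γ (ξ ω) (u ω)) ∧
    (∀ ω v, IsSolution κ γ (ξ ω) v → ∀ x t, 0 ≤ t → v x t = u ω x t) ∧
    (∀ ω t, 0 ≤ t → 0 < u ω 0 t) ∧
    ∃ c : ℝ, ∀ t : ℝ, 0 ≤ t → Integrable (fun ω => Real.log (u ω 0 t)) P ∧
      ∫ ω, Real.log (u ω 0 t) ∂P ≤ c * t

/-- `l` is the quenched Lyapunov exponent `λ₀(κ)` for the coupling constant `γ` -/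
def IsLyapunov {Ω : Type} [MeasurableSpace Ω] (P : Measure Ω) (ξ : Ω → Field) (γ κ l : ℝ) :
    Prop :=
  ∀ᵐ ω ∂P, ∃ u, IsSolution κ γ (ξ ω) u ∧ Tendsto (fun t => Real.log (u 0 t) / t) atTop (𝓝 l)

open Pool.Agent.R508.PAM in
theorem sol_iff (κ γ : ℝ) (h : HH) (u : ℤ → ℝ → ℝ) :
    IsSolution κ γ (xi h) u ↔ Pool.Agent.R508.PAM.IsSolution κ γ (xr h) u := by
  constructor
  · intro hu
    exact ⟨hu.init, fun x t ht => hu.deriv x ⟨t, ht⟩, hu.bdd⟩
  · intro hu
    exact ⟨hu.init, fun x t => hu.deriv x t t.2, hu.bdd⟩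

open Pool.Agent.R508.PAM in
theorem xr_V (h : HH) : ∀ x t, 0 ≤ t → xr h x t ∈ Set.Icc (0 : ℝ) 1 :=
  fun x t _ => xr_mem h x t

open Pool.Agent.R508.PAM in
theorem ex_sol (κ γ : ℝ) (h : HH) : ∃ u, Pool.Agent.R508.PAM.IsSolution κ γ (xr h) u :=
  exists_solution κ γ (xr h)
    (fun x t => by rw [abs_of_nonneg (xr_mem h x t).1]; exact (xr_mem h x t).2) (xr_lip h)

open Pool.Agent.R508.PAM in
theorem limit_xr (κ γ : ℝ) (hκ : 0 < κ) (hγ : 0 ≤ γ) (h : HH) (u : ℤ → ℝ → ℝ)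
    (hu : Pool.Agent.R508.PAM.IsSolution κ γ (xr h) u) :
    Tendsto (fun t => Real.log (u 0 t) / t) atTop (𝓝 γ) := by
  refine hu.limit hκ hγ (xr_V h) fun k hk => ?_
  obtain ⟨k, rfl⟩ : ∃ k', k = k' + 1 := ⟨k - 1, by omega⟩
  exact ⟨MM (k + 1), cc (k + 1), MM_ge (k + 1), MM_pow_le k, xr_block h k⟩

open Pool.Agent.R508.PAM in
theorem lower (κ γ : ℝ) (hκ : 0 ≤ κ) (hγ : 0 ≤ γ) (h : HH) (u : ℤ → ℝ → ℝ)
    (hu : Pool.Agent.R508.PAM.IsSolution κ γ (xr h) u) (t : ℝ) (ht : 0 ≤ t) :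
    Real.exp (-(2 * κ * t)) ≤ u 0 t := by
  have h1 := hu.spread hκ hγ (xr_V h) 0 0 1 le_rfl zero_le_one (by rw [hu.init]; simp) 0 0 t
    (by simp) ht
  simp only [pow_zero, Nat.factorial_zero, Nat.cast_one, div_one, mul_one, sub_zero] at h1
  rw [Real.exp_neg, inv_le_iff_one_le_mul₀' (Real.exp_pos _)]
  exact h1

open Pool.Agent.R508.PAM in
theorem a2 : A2 PP xi := by
  intro κ γ hκ hγ
  choose u hu using fun h : HH => ex_sol κ γ h
  refine ⟨u, fun h => (sol_iff κ γ h _).2 (hu h), fun h v hv x t ht => ?_, fun h t ht => ?_, γ,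
    fun t ht => ?_⟩
  · exact ((sol_iff κ γ h v).1 hv).unique (hu h) hκ hγ (xr_V h) x t ht
  · exact (Real.exp_pos _).trans_le (lower κ γ hκ hγ h _ (hu h) t ht)
  · have hm : Measurable fun h => u h 0 t :=
      solution_measurable hκ hγ (fun h => xr_V h) (fun h x s t _ _ => xr_lip h x s t)
        (fun x t _ => xr_meas x t) hu 0 ht
    have hl : ∀ h, -(2 * κ * t) ≤ Real.log (u h 0 t) := by
      intro h
      rw [Real.le_log_iff_exp_le ((Real.exp_pos _).trans_le (lower κ γ hκ hγ h _ (hu h) t ht))]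
      exact lower κ γ hκ hγ h _ (hu h) t ht
    have hup : ∀ h, Real.log (u h 0 t) ≤ γ * t := by
      intro h
      rw [Real.log_le_iff_le_exp ((Real.exp_pos _).trans_le (lower κ γ hκ hγ h _ (hu h) t ht))]
      exact (hu h).le_exp hκ hγ (xr_V h) 0 t ht
    have hi : Integrable (fun h => Real.log (u h 0 t)) PP := by
      refine Integrable.of_bound hm.log.aestronglyMeasurable (2 * κ * t + γ * t)
        (ae_of_all _ fun h => ?_)
      rw [Real.norm_eq_abs, abs_le]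
      have h1 := hl h
      have h2 := hup h
      have h3 : 0 ≤ κ * t := mul_nonneg hκ ht
      have h4 : 0 ≤ γ * t := mul_nonneg hγ ht
      constructor <;> linarith
    refine ⟨hi, ?_⟩
    have := integral_mono hi (integrable_const (γ * t)) hup
    simpa using this

open Pool.Agent.R508.PAM in
/-- both limits fail, for one environment on `ℤ` and every coupling constant `γ > 0` -/
theorem result : ∃ (Ω : Type) (_ : MeasurableSpace Ω) (P : Measure Ω) (_ : IsProbabilityMeasure P)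
    (ξ : Ω → Field), A1 P ξ ∧ A2 P ξ ∧
      (∀ ω x t, 0 ≤ ξ ω x t ∧ ξ ω x t ≤ 1) ∧
      (∀ ω x s t, |ξ ω x s - ξ ω x t| ≤ |(s : ℝ) - t|) ∧
      ∫ ω, ξ ω 0 0 ∂P ≤ 1 / 8 ∧
      ∀ γ : ℝ, 0 < γ →
        (∀ κ : ℝ, 0 < κ → ∀ ω u, IsSolution κ γ (ξ ω) u →
          Tendsto (fun t => Real.log (u 0 t) / t) atTop (𝓝 γ)) ∧
        (∀ κ : ℝ, 0 < κ → IsLyapunov P ξ γ κ γ) ∧
        ∀ lam : ℝ → ℝ, (∀ κ : ℝ, 0 < κ → IsLyapunov P ξ γ κ (lam κ)) →
          (∀ κ : ℝ, 0 < κ → lam κ = γ) ∧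
          ¬ Tendsto lam (𝓝[>] 0) (𝓝 ((∫ ω, ξ ω 0 0 ∂P) * γ)) ∧
          ¬ Tendsto lam atTop (𝓝 ((∫ ω, ξ ω 0 0 ∂P) * γ)) := by
  refine ⟨HH, inferInstance, PP, inferInstance, xi, ?_, a2, fun h x t => xr_mem h x t,
    fun h x s t => xr_lip h x s t, integral_xi_le, fun γ hγ => ?_⟩
  · exact
      { measurable := xi_meas
        stationary := map_shift
        ergodic_time := erg_time
        ergodic_space := erg_space
        not_const := not_const
        integrable := integrable_xi }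
  · have hlim : ∀ κ : ℝ, 0 < κ → ∀ (h : HH) u, IsSolution κ γ (xi h) u →
        Tendsto (fun t => Real.log (u 0 t) / t) atTop (𝓝 γ) := fun κ hκ h u hu =>
      limit_xr κ γ hκ hγ.le h u ((sol_iff κ γ h u).1 hu)
    refine ⟨hlim, fun κ hκ => ae_of_all _ fun h => ?_, fun lam hlam => ?_⟩
    · obtain ⟨u, hu⟩ := ex_sol κ γ h
      exact ⟨u, (sol_iff κ γ h u).2 hu, limit_xr κ γ hκ hγ.le h u hu⟩
    · have hl : ∀ κ : ℝ, 0 < κ → lam κ = γ := by
        intro κ hκ
        obtain ⟨h, u, hu, ht⟩ := (hlam κ hκ).exists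
        exact tendsto_nhds_unique ht (hlim κ hκ h u hu)
      have hne : γ ≠ (∫ h, xi h 0 0 ∂PP) * γ := by
        have h1 := integral_xi_le
        have h2 : (∫ h, xi h 0 0 ∂PP) * γ ≤ 1 / 8 * γ := mul_le_mul_of_nonneg_right h1 hγ.le
        intro he
        linarith
      refine ⟨hl, fun ht => ?_, fun ht => ?_⟩
      · have h1 : Tendsto lam (𝓝[>] 0) (𝓝 γ) := by
          refine tendsto_const_nhds.congr' ?_
          filter_upwards [self_mem_nhdsWithin] with κ hκ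
          exact (hl κ hκ).symm
        exact hne (tendsto_nhds_unique h1 ht)
      · have h1 : Tendsto lam atTop (𝓝 γ) := by
          refine tendsto_const_nhds.congr' ?_
          filter_upwards [eventually_gt_atTop 0] with κ hκ
          exact (hl κ hκ).symm
        exact hne (tendsto_nhds_unique h1 ht)

end Pool.Agent.Results.MP_e6ac48_pr.LyapunovLimitsFail
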